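import Pool.Agent.Helper78.OE.GoalsC1

/-!
Project OE (MP_fc0446_an), packet OE-MEAS: a function of the state which sees only the
configuration and the edges on a finite set is measurable.
-/

open MeasureTheory Pool.Agent.Helper73.OE Pool.Agent.Helper78.OE
open scoped ENNReal

namespace Pool.Agent.Helper70.OE

variable {H S L : Type} [Group H] (X : Sys H S L)

instance instMSCEquiv (S L : Type) : MeasurableSingletonClass (S ≃ L) := ⟨fun _ => trivial⟩

/-- Measurability for a general measurable set of edges. -/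
theorem meas_aux [Finite S] [Finite L] {α : Type} [MeasurableSpace α]
    (F : Edges H S → Cfg H S L → α) (Λ : Set H) (hΛ : Λ.Finite)
    (hF : ∀ O O' f f', Agr X Λ O O' f f' → F O f = F O' f')
    (O : St H S L → Edges H S) (hO : ∀ z s, MeasurableSet {w | O w z s}) :
    Measurable fun w : St H S L => F (O w) w.1 := by
  classical
  have : Finite Λ := hΛ
  let G : (Λ → (S ≃ L)) × (Λ × S → Prop) → α := fun d =>
    F (fun z s => ∃ h : z ∈ Λ, d.2 (⟨z, h⟩, s)) (fun z => if h : z ∈ Λ then d.1 ⟨z, h⟩ else X.e0)
  have hG : Measurable G := measurable_of_finite G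
  have hm : Measurable fun w : St H S L =>
      ((fun z : Λ => w.1 z, fun e : Λ × S => O w e.1 e.2) :
        (Λ → (S ≃ L)) × (Λ × S → Prop)) := by
    refine Measurable.prodMk ?_ ?_
    · exact measurable_pi_iff.2 fun z => (measurable_pi_apply _).comp measurable_fst
    · exact measurable_pi_iff.2 fun e => measurableSet_setOfPred.1 (hO e.1 e.2)
  have he : (fun w : St H S L => F (O w) w.1) = G ∘ fun w : St H S L =>
      ((fun z : Λ => w.1 z, fun e : Λ × S => O w e.1 e.2) :
        (Λ → (S ≃ L)) × (Λ × S → Prop)) := by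
    funext w
    refine hF _ _ _ _ ⟨fun z hz => ?_, fun z s hz _ => ?_⟩
    · simp [hz]
    · exact ⟨fun h => ⟨hz, h⟩, fun ⟨_, h⟩ => h⟩
  rw [he]
  exact hG.comp hm

theorem meas_cl (ε : ℝ) (z : H) (s : S) : MeasurableSet {w : St H S L | X.Cl ε w.2 z s} := by
  have h : ∀ e : H × S, MeasurableSet {w : St H S L | ((w.2 e).1 : ℝ) ^ 2 ≤ ε} := by
    intro e
    refine measurableSet_le ?_ measurable_const
    refine Measurable.pow_const ?_ 2
    exact measurable_subtype_coe.comp
      (measurable_fst.comp ((measurable_pi_apply e).comp measurable_snd))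
  exact (h (z, s)).inter (h (X.rev (z, s)))

theorem meas_op (ε : ℝ) (z : H) (s : S) : MeasurableSet {w : St H S L | X.Op ε w.2 z s} :=
  (meas_cl X ε z s).compl

theorem meas_mt [Finite S] [Finite L] (z : H) (s : S) :
    MeasurableSet {w : St H S L | X.Mt w.1 z s} := by
  have h : Measurable fun w : St H S L => ((w.1 (X.nb z s), w.1 z) : (S ≃ L) × (S ≃ L)) :=
    Measurable.prodMk ((measurable_pi_apply _).comp measurable_fst)
      ((measurable_pi_apply _).comp measurable_fst)
  have h2 : MeasurableSet {d : (S ≃ L) × (S ≃ L) | d.1 (X.bar s) = X.tau (d.2 s)} :=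
    Set.Finite.measurableSet (Set.toFinite _)
  exact h h2

theorem meas [Finite S] [Finite L] : MEAS X := by
  intro α _ F Λ hΛ hF ε
  exact ⟨meas_aux X F Λ hΛ hF (Om X ε) fun z s => (meas_op X ε z s).inter (meas_mt X z s),
    meas_aux X F Λ hΛ hF (fun w => X.Op ε w.2) fun z s => meas_op X ε z s⟩

end Pool.Agent.Helper70.OE
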