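import Pool.Agent.Helper78.OE.GoalsC2

/-!
Project OE (MP_fc0446_an), packet OE-NA2: at most card L - 2 side labels are available.
-/

open MeasureTheory Pool.Agent.Helper73.OE Pool.Agent.Helper78.OE
open scoped ENNReal

namespace Pool.Agent.Helper70.OE

variable {H S L : Type} [Group H] (X : Sys H S L)

theorem av_miss (O : Edges H S) (M : ℕ) (f : Cfg H S L) (hO : ∀ v s, O v s → X.Mt f v s) :
    ∀ (m : ℕ) (v : H) (p : S) (y : L), f v p ≠ y →
      ∃ a b : L, a ≠ b ∧ ∀ k, X.Av O M f m v p y k → k ≠ a ∧ k ≠ b := by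
  intro m
  induction m with
  | zero =>
    intro v p y h
    exact ⟨f v p, y, h, fun k hk => ⟨hk.1, hk.2.1⟩⟩
  | succ m ih =>
    intro v p y h
    by_cases ho : O v ((f v).symm y)
    · have h1 := hO _ _ ho
      unfold Sys.Mt at h1
      rw [Equiv.apply_symm_apply] at h1
      have h2 : f (X.nb v ((f v).symm y)) (X.bar ((f v).symm y)) ≠ X.tau (f v p) := by
        rw [h1]
        intro h3
        apply h
        have h4 := congrArg X.tau h3
        rw [X.tau_tau, X.tau_tau] at h4
        exact h4.symm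
      obtain ⟨a, b, hab, hk⟩ := ih _ _ _ h2
      exact ⟨a, b, hab, fun k h5 => hk k h5.2⟩
    · exact ⟨f v p, y, h, fun k hk => absurd hk.1 ho⟩

theorem na2 [Fintype S] [Fintype L] : NA2 X := by
  classical
  intro ε M m v p y w h
  obtain ⟨a, b, hab, hk⟩ := av_miss X (Om X ε w) M w.1 (fun _ _ h => h.2) m v p y h
  unfold NA
  calc ∑ k : L, ind (X.Av (Om X ε w) M w.1 m v p y k)
      ≤ ∑ k : L, if k ∈ (Finset.univ \ {a, b} : Finset L) then (1 : ℝ≥0∞) else 0 := by
        refine Finset.sum_le_sum fun k _ => ?_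
        by_cases h1 : X.Av (Om X ε w) M w.1 m v p y k
        · have h2 := hk k h1
          have h3 : k ∈ (Finset.univ \ {a, b} : Finset L) := by
            simp [h2.1, h2.2]
          rw [if_pos h3]
          exact ind_le_one _
        · rw [ind_false h1]
          exact zero_le
    _ = ((Finset.univ \ {a, b} : Finset L).card : ℝ≥0∞) := by
        rw [Finset.sum_ite_mem, Finset.univ_inter, Finset.sum_const, nsmul_eq_mul, mul_one]
    _ = ((Fintype.card L - 2 : ℕ) : ℝ≥0∞) := by
        rw [Finset.card_sdiff_of_subset (Finset.subset_univ _), Finset.card_pair hab,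
          Finset.card_univ]

end Pool.Agent.Helper70.OE
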