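import Pool.Agent.Helper75.OE.GoalsB2

/-!
Project OE (MP_fc0446_an), packet OE-ORDF: facts about the ordered lists.
-/

open Pool.Agent.Helper73.OE Pool.Agent.Helper75.OE Pool.Agent.Helper79.OE

namespace Pool.Agent.Helper70.OE

theorem ordf (h1 : D_ORD) : B_ORDF := by
  classical
  intro H S L _ X ε ε' η Λ Λ' l hl hΛ
  have hop : X.Sym (X.Op ε η) := fun v s => Pool.Agent.Helper78.OE.Op_symm X ε η v s
  have hcl : ∀ (δ : ℝ) (v : H) (s : S), X.Cl δ η v s ↔ X.Cl δ η (X.nb v s) (X.bar s) := by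
    intro δ v s
    unfold Sys.Cl
    have h : X.rev (X.nb v s, X.bar s) = (v, s) := X.rev_rev (v, s)
    rw [h]
    unfold Sys.rev
    rw [and_comm]
  have hprio : ∀ e : H × S, X.prio η (X.rev e) = X.prio η e := by
    intro e
    unfold Sys.prio
    rw [X.rev_rev, max_comm]
  refine ⟨?_, ⟨hl.1.filter _, ?_⟩, ⟨?_, ?_⟩, hop, ?_, ?_⟩
  · have hex : ∃ l, X.IsOrd ε ε' η Λ' l := ⟨l, hl⟩
    have h2 : X.IsOrd ε ε' η Λ' (X.ordL ε ε' η Λ') := by
      unfold Sys.ordL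
      rw [dif_pos hex]
      exact hex.choose_spec
    exact (h1 X ε ε' η Λ').1 _ _ h2 hl
  · intro e
    rw [List.mem_filter, hl.2 e, decide_eq_true_iff]
    constructor
    · rintro ⟨⟨a, -, -, d⟩, b, c⟩
      exact ⟨a, b, c, d⟩
    · rintro ⟨a, b, c, d⟩
      exact ⟨⟨a, hΛ b, hΛ c, d⟩, b, c⟩
  · refine hl.1.imp ?_
    intro e e' h
    constructor
    · rintro rfl
      exact lt_irrefl _ h
    · rintro rfl
      rw [hprio] at h
      exact lt_irrefl _ h
  · intro e he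
    have h2 := ((hl.2 e).1 he).1
    exact ⟨h2, fun h3 => h3 h2.1⟩
  · intro v s
    unfold Sys.Si
    rw [hcl ε v s, hcl ε' v s]
  · intro v s
    unfold Sys.inside
    rw [hop v s, X.nb_bar]
    constructor
    · rintro ⟨a, b, c⟩
      exact ⟨a, c, b⟩
    · rintro ⟨a, b, c⟩
      exact ⟨a, c, b⟩

end Pool.Agent.Helper70.OE
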